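import Pool.Agent.H.MP_9865ab_al.Main

set_option autoImplicit false
open Pointwise Set Cardinal

namespace Pool.Agent.H.MP_e349a0_al

open Pool.Agent.H.MP_9865ab_al

universe u

theorem supports {G : Type u} [Group G] (κ : Cardinal.{u}) (h0 : ℵ₀ < κ) (hκ : κ ≤ #G)
    (E : Set G) (hE : E.Countable) :
    ∃ (J : Type u) (supp : G → Set J), #J = κ ∧ (∀ x, (supp x).Finite) ∧
      (∀ x, ∀ k ∈ E, supp (x * k) = supp x ∧ supp (x * k⁻¹) = supp x) ∧
      ∀ j, ∃ t : G, ∀ x, j ∈ supp x ∨ j ∈ supp (x * t) := by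
  classical
  let ι := κ.ord.ToType
  have hι : #ι = κ := mk_ord_toType _
  obtain ⟨e⟩ : Nonempty (ι ↪ G) := by
    rw [← Cardinal.le_def, hι]; exact hκ
  let K : Set ι → Subgroup G := fun S => Subgroup.closure (E ∪ e '' S)
  have Kmono : ∀ {S T : Set ι}, S ⊆ T → K S ≤ K T := fun h =>
    Subgroup.closure_mono (union_subset_union_right _ (image_mono h))
  have hEc : #E < κ := (le_aleph0_iff_set_countable.2 hE).trans_lt h0
  have hK : ∀ T : Set ι, #T < κ → #(K T) < κ := by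
    intro T hT
    refine (card_closure_le _).trans_lt (max_lt ?_ h0)
    exact (mk_union_le _ _).trans_lt (add_lt_of_lt h0.le hEc (mk_image_le.trans_lt hT))
  let J : Set ι := {a | e a ∉ K (Iio a)}
  have hJ : #J = κ := by
    apply le_antisymm ((mk_set_le J).trans hι.le)
    by_contra hlt
    have hlt' : #J < κ := not_le.1 hlt
    have hall : ∀ a, e a ∈ K J := by
      intro a
      induction a using WellFoundedLT.induction with
      | ind a ih =>
        by_cases ha : a ∈ J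
        · exact Subgroup.subset_closure (Or.inr ⟨a, ha, rfl⟩)
        · have ha' : e a ∈ K (Iio a) := not_not.1 ha
          refine (Subgroup.closure_le _).2 ?_ ha'
          rintro x (hx | ⟨b, hb, rfl⟩)
          · exact Subgroup.subset_closure (Or.inl hx)
          · exact ih b hb
    have h1 : #ι ≤ #(K J) :=
      mk_le_of_injective (f := fun a => (⟨e a, hall a⟩ : K J))
        (fun a b h => e.injective (congrArg Subtype.val h))
    rw [hι] at h1
    exact absurd (hK J hlt') (not_lt.2 h1)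
  have wf : WellFounded (WellOrderingRel (α := G)) := IsWellFounded.wf
  have hne : ∀ (L : Subgroup G) (x : G), {y | x⁻¹ * y ∈ L}.Nonempty :=
    fun L x => ⟨x, by simp⟩
  let m : Subgroup G → G → G := fun L x => wf.min _ (hne L x)
  have hm1 : ∀ L x, x⁻¹ * m L x ∈ L := fun L x => wf.min_mem _ (hne L x)
  have hm2 : ∀ L x y, x⁻¹ * y ∈ L → ¬ WellOrderingRel y (m L x) := fun L x y h =>
    wf.not_lt_min {y | x⁻¹ * y ∈ L} (x := y) h
  have hm3 : ∀ (L L' : Subgroup G) x x', (∀ y, x⁻¹ * y ∈ L → x'⁻¹ * y ∈ L') →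
      x⁻¹ * m L' x' ∈ L → m L x = m L' x' := by
    intro L L' x x' h1 h2
    rcases trichotomous_of (WellOrderingRel (α := G)) (m L x) (m L' x') with h | h | h
    · exact absurd h (hm2 L' x' _ (h1 _ (hm1 L x)))
    · exact h
    · exact absurd h (hm2 L x _ h2)
  have hm4 : ∀ (L : Subgroup G) x k, k ∈ L → m L (x * k) = m L x := by
    intro L x k hk
    apply hm3
    · intro y hy
      have := mul_mem hk hy
      simpa [mul_assoc] using this
    · have := mul_mem (inv_mem hk) (hm1 L x)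
      simpa [mul_assoc] using this
  have hm5 : ∀ (L L' : Subgroup G) x, L ≤ L' →
      m L' x = m L x ∨ WellOrderingRel (m L' x) (m L x) := by
    intro L L' x h
    rcases trichotomous_of (WellOrderingRel (α := G)) (m L' x) (m L x) with h1 | h1 | h1
    · exact Or.inr h1
    · exact Or.inl h1
    · exact absurd h1 (hm2 L' x _ (h (hm1 L x)))
  have hEK : ∀ S, ∀ k ∈ E, k ∈ K S := fun S k hk => Subgroup.subset_closure (Or.inl hk)
  refine ⟨J, fun x => {j | m (K (Iio j.1)) x ≠ m (K (Iic j.1)) x}, hJ, ?_, ?_, ?_⟩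
  · intro x
    have : WellFoundedGT {j : J | m (K (Iio j.1)) x ≠ m (K (Iic j.1)) x} := by
      refine ⟨Subrelation.wf (r := InvImage WellOrderingRel
        (fun j : {j : J | m (K (Iio j.1)) x ≠ m (K (Iic j.1)) x} => m (K (Iio j.1.1)) x)) ?_
        (InvImage.wf _ wf)⟩
      intro b a hab
      have hab' : a.1.1 < b.1.1 := hab
      have h1 : WellOrderingRel (m (K (Iic a.1.1)) x) (m (K (Iio a.1.1)) x) :=
        (hm5 _ _ x (Kmono Iio_subset_Iic_self)).resolve_left (fun h => a.2 h.symm)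
      rcases hm5 (K (Iic a.1.1)) (K (Iio b.1.1)) x
        (Kmono (fun i hi => lt_of_le_of_lt hi hab')) with h2 | h2
      · exact (h2 ▸ h1 : WellOrderingRel (m (K (Iio b.1.1)) x) (m (K (Iio a.1.1)) x))
      · exact (IsTrans.trans (r := WellOrderingRel) _ _ _ h2 h1 :
          WellOrderingRel (m (K (Iio b.1.1)) x) (m (K (Iio a.1.1)) x))
    exact Set.finite_coe_iff.1 (Finite.of_wellFoundedLT_wellFoundedGT _)
  · intro x k hk
    constructor
    · ext j
      simp only [mem_ofPred_eq]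
      rw [hm4 _ x k (hEK _ k hk), hm4 _ x k (hEK _ k hk)]
    · ext j
      simp only [mem_ofPred_eq]
      rw [hm4 _ x k⁻¹ (inv_mem (hEK _ k hk)), hm4 _ x k⁻¹ (inv_mem (hEK _ k hk))]
  · intro j
    refine ⟨e j.1, fun x => ?_⟩
    have hej : e j.1 ∈ K (Iic j.1) := Subgroup.subset_closure (Or.inr ⟨j.1, le_refl j.1, rfl⟩)
    by_contra hcon
    simp only [mem_ofPred_eq, not_or, not_not] at hcon
    obtain ⟨h1, h2⟩ := hcon
    rw [hm4 _ x _ hej, ← h1] at h2
    have h3 := hm1 (K (Iio j.1)) x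
    have h4 := hm1 (K (Iio j.1)) (x * e j.1)
    rw [h2] at h4
    apply j.2
    have := mul_mem h3 (inv_mem h4)
    simpa [mul_assoc] using this

theorem to_partition {G : Type u} [Group G] {J : Type u} [Nonempty J] (A : J → Set G)
    (hA1 : Pairwise (fun i j => Disjoint (A i) (A j))) (hne : ∀ j, (A j).Nonempty) :
    ∃ P : Set (Set G), Setoid.IsPartition P ∧ #P = #J ∧ ∀ B ∈ P, ∃ j, A j ⊆ B := by
  classical
  obtain ⟨j0⟩ := ‹Nonempty J›
  let c : G → J := fun g => if h : ∃ j, g ∈ A j then h.choose else j0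
  have hc : ∀ j, A j ⊆ c ⁻¹' {j} := by
    intro j g hg
    have h : ∃ j, g ∈ A j := ⟨j, hg⟩
    simp only [c, mem_preimage, mem_singleton_iff, dif_pos h]
    by_contra hne
    exact Set.disjoint_left.1 (hA1 hne) h.choose_spec hg
  refine ⟨range (fun j => c ⁻¹' {j}), ⟨?_, fun g => ?_⟩, ?_, ?_⟩
  · rintro ⟨j, hj⟩
    exact ((hne j).mono (hc j)).ne_empty hj
  · refine ⟨c ⁻¹' {c g}, ⟨⟨c g, rfl⟩, rfl⟩, ?_⟩
    rintro _ ⟨⟨j, rfl⟩, hj⟩
    have : c g = j := hj
    rw [this]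
  · rw [mk_range_eq _ ?_]
    intro i j hij
    obtain ⟨a, ha⟩ := hne i
    have h1 : a ∈ c ⁻¹' {i} := hc i ha
    have h2 : a ∈ c ⁻¹' {j} := by
      simp only at hij
      rw [← hij]; exact h1
    exact Eq.trans (Eq.symm h1) h2
  · rintro _ ⟨j, rfl⟩
    exact ⟨j, hc j⟩

theorem family {G : Type u} [Group G] [Infinite G] (h : ℵ₀ < #G) :
    ∃ (J : Type u) (A : J → Set G), #J = #G ∧ Pairwise (fun i j => Disjoint (A i) (A j)) ∧
      ∀ j, (∃ F : Set G, F.Countable ∧ F * A j = Set.univ) ∧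
        (∃ F : Set G, F.Countable ∧ A j * F = Set.univ) := by
  classical
  obtain ⟨B, hB1, hB2⟩ := countable_case (G := G)
  choose FL hFL1 hFL2 using fun n => (hB2 n).1
  choose FR hFR1 hFR2 using fun n => (hB2 n).2
  let E : Set G := ⋃ n, (FL n ∪ FR n)
  have hE : E.Countable := countable_iUnion fun n => ((hFL1 n).union (hFR1 n)).countable
  obtain ⟨J, supp, hJ, hs1, hs2, hs3⟩ := supports (#G) h le_rfl E hE
  have henc : ∀ S : Set J, ∃ f : J → ℕ, S.Finite → InjOn f S := by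
    intro S
    by_cases hS : S.Finite
    · obtain ⟨f, hf⟩ := Set.countable_iff_exists_injOn.1 hS.countable
      exact ⟨f, fun _ => hf⟩
    · exact ⟨fun _ => 0, fun h => absurd h hS⟩
  choose enc henc using henc
  refine ⟨J, fun j => {g | ∃ n, (g ∈ B (2 * n) ∧ j ∈ supp g ∧ enc (supp g) j = n) ∨
      (g ∈ B (2 * n + 1) ∧ j ∈ supp g⁻¹ ∧ enc (supp g⁻¹) j = n)}, hJ, ?_, fun j => ?_⟩
  · intro i j hij
    refine Set.disjoint_left.2 ?_
    have hBeq : ∀ {g a b}, g ∈ B a → g ∈ B b → a = b := by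
      intro g a b ha hb
      by_contra hne
      exact Set.disjoint_left.1 (hB1 hne) ha hb
    rintro g ⟨n, ⟨h1, h2, h3⟩ | ⟨h1, h2, h3⟩⟩ ⟨n', ⟨h4, h5, h6⟩ | ⟨h4, h5, h6⟩⟩
    · have := hBeq h1 h4
      exact hij (henc _ (hs1 _) h2 h5 (by omega))
    · have := hBeq h1 h4
      omega
    · have := hBeq h1 h4
      omega
    · have := hBeq h1 h4
      exact hij (henc _ (hs1 _) h2 h5 (by omega))
  · obtain ⟨t, ht⟩ := hs3 j
    constructor
    · refine ⟨{1, t} * E, Set.Countable.image2 ((countable_singleton t).insert 1) hE _,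
        eq_univ_of_forall fun y => ?_⟩
      obtain ⟨s, hs, hjs⟩ : ∃ s ∈ ({1, t} : Set G), j ∈ supp (y⁻¹ * s) := by
        rcases ht y⁻¹ with h1 | h1
        · exact ⟨1, by simp, by simpa using h1⟩
        · exact ⟨t, by simp, h1⟩
      have : (y⁻¹ * s)⁻¹ ∈ FL (2 * enc (supp (y⁻¹ * s)) j + 1) *
        B (2 * enc (supp (y⁻¹ * s)) j + 1) := hFL2 _ ▸ mem_univ _
      obtain ⟨f, hf, b, hb, hfb⟩ := this
      have hfE : f ∈ E := mem_iUnion.2 ⟨_, Or.inl hf⟩
      simp only at hfb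
      have hb' : b⁻¹ = y⁻¹ * s * f := by
        rw [← inv_inv (y⁻¹ * s), ← hfb]; group
      have hsupp : supp b⁻¹ = supp (y⁻¹ * s) := by rw [hb']; exact (hs2 _ f hfE).1
      refine ⟨s * f, mul_mem_mul hs hfE, b,
        ⟨_, Or.inr ⟨hb, hsupp ▸ hjs, by rw [hsupp]⟩⟩, ?_⟩
      simp only
      rw [mul_assoc, hfb]; group
    · refine ⟨E * {1, t⁻¹}, Set.Countable.image2 hE ((countable_singleton t⁻¹).insert 1) _,
        eq_univ_of_forall fun y => ?_⟩
      obtain ⟨s, hs, hjs⟩ : ∃ s ∈ ({1, t⁻¹} : Set G), j ∈ supp (y * s⁻¹) := by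
        rcases ht y with h1 | h1
        · exact ⟨1, by simp, by simpa using h1⟩
        · exact ⟨t⁻¹, by simp, by simpa using h1⟩
      have : y * s⁻¹ ∈ B (2 * enc (supp (y * s⁻¹)) j) *
        FR (2 * enc (supp (y * s⁻¹)) j) := hFR2 _ ▸ mem_univ _
      obtain ⟨b, hb, f, hf, hfb⟩ := this
      have hfE : f ∈ E := mem_iUnion.2 ⟨_, Or.inr hf⟩
      simp only at hfb
      have hb' : b = y * s⁻¹ * f⁻¹ := by
        rw [← hfb]; group
      have hsupp : supp b = supp (y * s⁻¹) := by rw [hb']; exact (hs2 _ f hfE).2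
      refine ⟨b, ⟨_, Or.inl ⟨hb, hsupp ▸ hjs, by rw [hsupp]⟩⟩, f * s, mul_mem_mul hfE hs, ?_⟩
      simp only
      rw [← mul_assoc, hfb]; group

theorem main {G : Type u} [Group G] [Infinite G] :
    ∃ P : Set (Set G), Setoid.IsPartition P ∧ #P = #G ∧
      ∀ A ∈ P, (∃ F : Set G, #F < ℵ₁ ∧ F * A = Set.univ) ∧
        (∃ F : Set G, #F < ℵ₁ ∧ A * F = Set.univ) := by
  rcases eq_or_lt_of_le (aleph0_le_mk G) with h | h
  · obtain ⟨P, hP1, hP2, hP3⟩ := MP_9865ab_al.main (G := G) ℵ₀ le_rfl h.le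
    refine ⟨P, hP1, hP2.trans h, fun A hA => ?_⟩
    obtain ⟨⟨F, hF, hF'⟩, F2, hF2, hF2'⟩ := hP3 A hA
    exact ⟨⟨F, hF.trans aleph0_lt_aleph_one, hF'⟩, F2, hF2.trans aleph0_lt_aleph_one, hF2'⟩
  obtain ⟨J, A, hJ, hA1, hA2⟩ := family h
  have : Nonempty J := by
    rw [← mk_ne_zero_iff, hJ]
    exact (aleph0_pos.trans h).ne'
  have hne : ∀ j, (A j).Nonempty := by
    intro j
    obtain ⟨⟨F, -, hF⟩, -⟩ := hA2 j
    have : (1 : G) ∈ F * A j := hF ▸ mem_univ _
    obtain ⟨f, -, a, ha, -⟩ := this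
    exact ⟨a, ha⟩
  obtain ⟨P, hP1, hP2, hP3⟩ := to_partition A hA1 hne
  refine ⟨P, hP1, hP2.trans hJ, fun B hB => ?_⟩
  obtain ⟨j, hj⟩ := hP3 B hB
  obtain ⟨⟨F, hF, hF'⟩, F2, hF2, hF2'⟩ := hA2 j
  exact ⟨⟨F, (le_aleph0_iff_set_countable.2 hF).trans_lt aleph0_lt_aleph_one,
      eq_univ_of_univ_subset (hF' ▸ mul_subset_mul_left hj)⟩,
    F2, (le_aleph0_iff_set_countable.2 hF2).trans_lt aleph0_lt_aleph_one,
      eq_univ_of_univ_subset (hF2' ▸ mul_subset_mul_right hj)⟩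

end Pool.Agent.H.MP_e349a0_al
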